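import Pool.Agent.N645.LS.L7a

set_option autoImplicit false

/-! LS8b: the second class moment (project LS of helper356). -/

namespace Pool.Agent.N954.LS

open Finset MeasureTheory Pool.Agent.N356.SP Pool.Agent.N645.LS

/-- `X³ ≤ A² B` from Young's inequality with a parameter -/
private theorem cube_of_young {A B X : ℝ} (hB : 0 ≤ B) (hA : 0 ≤ A)
    (H : ∀ l : ℝ, 0 < l → 3 * X ≤ 2 * l * A + B / l ^ 2) (hX : 0 ≤ X) : X ^ 3 ≤ A ^ 2 * B := by
  rcases hX.eq_or_lt with h0 | h0
  · rw [← h0]; simpa using mul_nonneg (sq_nonneg A) hB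
  rcases hA.eq_or_lt with h1 | h1
  · exfalso
    have hl : 0 < B / X + 1 := by positivity
    have h := H (B / X + 1) hl
    rw [← h1, mul_zero, zero_add, le_div_iff₀ (by positivity)] at h
    have h2 : X * (B / X) = B := by field_simp
    have h3 : 0 ≤ B / X := by positivity
    have : 3 * X * (B / X + 1) ^ 2 = 3 * (X * (B / X)) * (B / X) + 6 * (X * (B / X)) + 3 * X := by
      ring
    rw [this, h2] at h
    nlinarith [mul_nonneg hB h3]
  · have h := H (X / A) (by positivity)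
    have e1 : 2 * (X / A) * A = 2 * X := by field_simp
    rw [e1] at h
    have h2 : X ≤ B / (X / A) ^ 2 := by linarith
    rw [le_div_iff₀ (by positivity)] at h2
    have e2 : X * (X / A) ^ 2 = X ^ 3 / A ^ 2 := by field_simp
    rw [e2, div_le_iff₀ (by positivity)] at h2
    linarith

/-- Hoelder's inequality with exponents `3/2`, `3` for continuous functions on `[0, 1]` -/
private theorem holder3 {G μ : ℝ → ℝ} (hG : Continuous G) (hμ : Continuous μ)
    (hG0 : ∀ x, 0 ≤ G x) (hμ0 : ∀ x, 0 ≤ μ x) :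
    (∫ x in (0:ℝ)..1, G x ^ 2 * μ x) ^ 3 ≤
      (∫ x in (0:ℝ)..1, G x ^ 3) ^ 2 * ∫ x in (0:ℝ)..1, μ x ^ 3 := by
  have n1 : 0 ≤ ∫ x in (0:ℝ)..1, μ x ^ 3 :=
    intervalIntegral.integral_nonneg zero_le_one fun x _ => pow_nonneg (hμ0 x) 3
  have n2 : 0 ≤ ∫ x in (0:ℝ)..1, G x ^ 3 :=
    intervalIntegral.integral_nonneg zero_le_one fun x _ => pow_nonneg (hG0 x) 3
  have n3 : 0 ≤ ∫ x in (0:ℝ)..1, G x ^ 2 * μ x :=
    intervalIntegral.integral_nonneg zero_le_one fun x _ => mul_nonneg (pow_nonneg (hG0 x) 2) (hμ0 x)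
  refine cube_of_young n1 n2 (fun l hl => ?_) n3
  have i1 : IntervalIntegrable (fun x => G x ^ 2 * μ x) volume 0 1 :=
    ((hG.pow 2).mul hμ).intervalIntegrable _ _
  have i2 : IntervalIntegrable (fun x => 2 * l * G x ^ 3 + μ x ^ 3 / l ^ 2) volume 0 1 :=
    ((continuous_const.mul (hG.pow 3)).add ((hμ.pow 3).div_const _)).intervalIntegrable _ _
  have h : ∫ x in (0:ℝ)..1, 3 * (G x ^ 2 * μ x) ≤
      ∫ x in (0:ℝ)..1, (2 * l * G x ^ 3 + μ x ^ 3 / l ^ 2) := by
    refine intervalIntegral.integral_mono_on zero_le_one (i1.const_mul 3) i2 fun x _ => ?_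
    have h1 : 0 ≤ G x := hG0 x
    have h2 : 0 ≤ μ x := hμ0 x
    have key : 3 * (l * G x) ^ 2 * μ x ≤ 2 * (l * G x) ^ 3 + μ x ^ 3 := by
      have : 0 ≤ (l * G x - μ x) ^ 2 * (2 * (l * G x) + μ x) := by positivity
      nlinarith [this]
    have e : 2 * l * G x ^ 3 + μ x ^ 3 / l ^ 2 = (2 * (l * G x) ^ 3 + μ x ^ 3) / l ^ 2 := by
      field_simp
    rw [e, le_div_iff₀ (by positivity)]
    calc 3 * (G x ^ 2 * μ x) * l ^ 2 = 3 * (l * G x) ^ 2 * μ x := by ring
      _ ≤ _ := key
  have j1 : IntervalIntegrable (fun x => 2 * l * G x ^ 3) volume 0 1 :=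
    (continuous_const.mul (hG.pow 3)).intervalIntegrable _ _
  have j2 : IntervalIntegrable (fun x => μ x ^ 3 / l ^ 2) volume 0 1 :=
    ((hμ.pow 3).div_const _).intervalIntegrable _ _
  rw [intervalIntegral.integral_const_mul, intervalIntegral.integral_add j1 j2,
    intervalIntegral.integral_const_mul, intervalIntegral.integral_div] at h
  exact h

variable {m : ℕ} {C : Finset (ZMod m)} {g f : ℤ →₀ ℝ}

/-- the sum of the squares of the class functions -/
noncomputable def muf (m : ℕ) (C : Finset (ZMod m)) (f : ℤ →₀ ℝ) (x : ℝ) : ℝ :=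
  ∑ c ∈ C, ‖cl m f c x‖ ^ 2

theorem muf_nonneg (x : ℝ) : 0 ≤ muf m C f x := Finset.sum_nonneg fun _ _ => by positivity

theorem muf_cont : Continuous (muf m C f) :=
  continuous_finsetSum _ fun c _ => ((cl_cont m f c).norm).pow 2

theorem muf_eq (x : ℝ) : (muf m C f x : ℂ) = ∑ c ∈ C, cl m f c x * cl m f (-c) x := by
  unfold muf
  push_cast
  refine Finset.sum_congr rfl fun c _ => ?_
  rw [← cl_conj, Complex.mul_conj']

/-- LS8b -/
theorem A2_le
    (J_spec : ∀ (m : ℕ) (g f : ℤ →₀ ℝ), (∀ n, 0 ≤ g n) → (∀ n, 0 ≤ f n) →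
      (∀ n ∈ g.support, ((n : ℤ) : ZMod m) = 0) → ∀ (i : ℕ) (U : Multiset (ZMod m)),
      ∃ r : ℝ, 0 ≤ r ∧ (U.sum ≠ 0 → r = 0) ∧
        (∫ x in (0:ℝ)..1, ((cosp g x : ℝ) : ℂ) ^ i * (U.map fun c => cl m f c x).prod) = (r : ℂ))
    (hneg : ∀ s ∈ C, -s ∈ C) (_hne : ∀ s ∈ C, s ≠ -s)
    (hg0 : ∀ n, 0 ≤ g n) (hf0 : ∀ n, 0 ≤ f n)
    (hg : ∀ n ∈ g.support, ((n : ℤ) : ZMod m) = 0)
    (hf : ∀ n ∈ f.support, ((n : ℤ) : ZMod m) ∈ C) :
    0 ≤ AJ 4 2 g f ∧ AJ 4 2 g f ^ 3 ≤
      Mc 3 g ^ 2 * ∑ x ∈ C, ∑ y ∈ C, ∑ z ∈ C, Ic m f {x, -x, y, -y, z, -z} := by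
  have cc : ∀ a b : ZMod m, Continuous fun x : ℝ =>
      ((cosp g x : ℝ) : ℂ) ^ 4 * (cl m f a x * cl m f b x) := fun a b =>
    ((Complex.continuous_ofReal.comp (cosp_cont g)).pow 4).mul ((cl_cont m f a).mul (cl_cont m f b))
  -- step 1
  have h1 : AJ 4 2 g f = ∫ x in (0:ℝ)..1, (cosp g x ^ 2) ^ 2 * muf m C f x := by
    have : ((AJ 4 2 g f : ℝ) : ℂ) =
        ((∫ x in (0:ℝ)..1, (cosp g x ^ 2) ^ 2 * muf m C f x : ℝ) : ℂ) := by
      unfold AJ
      rw [← intervalIntegral.integral_ofReal, ← intervalIntegral.integral_ofReal]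
      have e1 : ∀ x : ℝ, ((cosp g x ^ 4 * cosp f x ^ 2 : ℝ) : ℂ) =
          ∑ a ∈ C, ∑ b ∈ C, ((cosp g x : ℝ) : ℂ) ^ 4 * (cl m f a x * cl m f b x) := by
        intro x
        push_cast
        rw [cosp_eq m f C hneg hf x, sq, Finset.sum_mul_sum, Finset.mul_sum]
        refine Finset.sum_congr rfl fun a _ => ?_
        rw [Finset.mul_sum]
      have e2 : ∀ x : ℝ, (((cosp g x ^ 2) ^ 2 * muf m C f x : ℝ) : ℂ) =
          ∑ a ∈ C, ((cosp g x : ℝ) : ℂ) ^ 4 * (cl m f a x * cl m f (-a) x) := by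
        intro x
        push_cast
        rw [muf_eq, Finset.mul_sum]
        refine Finset.sum_congr rfl fun a _ => ?_
        ring
      simp only [e1, e2]
      rw [intervalIntegral.integral_finsetSum fun a _ =>
          (continuous_finsetSum _ fun b _ => cc a b).intervalIntegrable _ _,
        intervalIntegral.integral_finsetSum fun a _ => (cc a (-a)).intervalIntegrable _ _]
      refine Finset.sum_congr rfl fun a ha => ?_
      rw [intervalIntegral.integral_finsetSum fun b _ => (cc a b).intervalIntegrable _ _]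
      refine Finset.sum_eq_single (-a) (fun b _ hb => ?_) (fun h => absurd (hneg a ha) h)
      obtain ⟨r, _, hr0, hr⟩ := J_spec m g f hg0 hf0 hg 4 {a, b}
      have hU : ({a, b} : Multiset (ZMod m)).sum ≠ 0 := by
        rw [Multiset.insert_eq_cons, Multiset.sum_cons, Multiset.sum_singleton]
        intro h
        exact hb (eq_neg_of_add_eq_zero_right h)
      rw [hr0 hU] at hr
      simpa [Multiset.insert_eq_cons] using hr
    exact_mod_cast this
  -- step 3
  have h3 : ∫ x in (0:ℝ)..1, muf m C f x ^ 3 =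
      ∑ x ∈ C, ∑ y ∈ C, ∑ z ∈ C, Ic m f {x, -x, y, -y, z, -z} := by
    have cp : ∀ U : Multiset (ZMod m), Continuous fun x : ℝ => (U.map fun c => cl m f c x).prod := by
      intro U
      induction U using Multiset.induction_on with
      | empty => simpa using continuous_const
      | cons a U ih =>
        simp only [Multiset.map_cons, Multiset.prod_cons]
        exact (cl_cont m f a).mul ih
    have e1 : ∀ t : ℝ, ((muf m C f t ^ 3 : ℝ) : ℂ) =
        ∑ x ∈ C, ∑ y ∈ C, ∑ z ∈ C,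
          (({x, -x, y, -y, z, -z} : Multiset (ZMod m)).map fun c => cl m f c t).prod := by
      intro t
      push_cast
      rw [muf_eq, pow_succ, sq, Finset.sum_mul_sum, Finset.sum_mul]
      refine Finset.sum_congr rfl fun x _ => ?_
      rw [Finset.sum_mul]
      refine Finset.sum_congr rfl fun y _ => ?_
      rw [Finset.mul_sum]
      refine Finset.sum_congr rfl fun z _ => ?_
      simp only [Multiset.insert_eq_cons, Multiset.map_cons, Multiset.map_singleton,
        Multiset.prod_cons, Multiset.prod_singleton]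
      ring
    have e2 : ((∫ x in (0:ℝ)..1, muf m C f x ^ 3 : ℝ) : ℂ) =
        ∑ x ∈ C, ∑ y ∈ C, ∑ z ∈ C, ∫ t in (0:ℝ)..1,
          (({x, -x, y, -y, z, -z} : Multiset (ZMod m)).map fun c => cl m f c t).prod := by
      rw [← intervalIntegral.integral_ofReal]
      simp only [e1]
      rw [intervalIntegral.integral_finsetSum fun x _ =>
        (continuous_finsetSum _ fun y _ => continuous_finsetSum _ fun z _ =>
          cp _).intervalIntegrable _ _]
      refine Finset.sum_congr rfl fun x _ => ?_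
      rw [intervalIntegral.integral_finsetSum fun y _ =>
        (continuous_finsetSum _ fun z _ => cp _).intervalIntegrable _ _]
      refine Finset.sum_congr rfl fun y _ => ?_
      rw [intervalIntegral.integral_finsetSum fun z _ => (cp _).intervalIntegrable _ _]
    have e3 := congrArg Complex.re e2
    rw [Complex.ofReal_re] at e3
    rw [e3]
    simp only [Complex.re_sum]
    rfl
  have hG : Continuous fun x => cosp g x ^ 2 := (cosp_cont g).pow 2
  have hh := holder3 hG (muf_cont (m := m) (C := C) (f := f)) (fun x => sq_nonneg _)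
    (fun x => muf_nonneg x)
  have hM : ∫ x in (0:ℝ)..1, (cosp g x ^ 2) ^ 3 = Mc 3 g := by
    unfold Mc
    refine intervalIntegral.integral_congr fun x _ => ?_
    exact (pow_mul (cosp g x) 2 3).symm
  rw [hM, ← h1, h3] at hh
  refine ⟨?_, hh⟩
  rw [h1]
  exact intervalIntegral.integral_nonneg zero_le_one fun x _ =>
    mul_nonneg (by positivity) (muf_nonneg x)

end Pool.Agent.N954.LS
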