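import Pool.Agent.N356.SP.Defs

set_option autoImplicit false

/-! LS2b: triples without antipodal pair against each other (project LS of helper356). -/

namespace Pool.Agent.N954.LS

open Finset Pool.Agent.N356.SP

variable {Γ : Type*} [AddCommGroup Γ]

/-- `K(T)` as a multiset -/
private theorem ms_eq1 (a b c : Γ) :
    ms (a, b, c) + ms (-a, -b, -c) = ({a, -a, b, -b, c, -c} : Multiset Γ) := by
  simp only [ms, Multiset.insert_eq_cons, ← Multiset.singleton_add]
  abel

private theorem ms_eq2 (a b c : Γ) :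
    ms (a, b, c) + ms (-b, -c, -a) = ({a, -a, b, -b, c, -c} : Multiset Γ) := by
  simp only [ms, Multiset.insert_eq_cons, ← Multiset.singleton_add]
  abel

private theorem ms_eq3 (a b c : Γ) :
    ms (a, b, c) + ms (-c, -a, -b) = ({a, -a, b, -b, c, -c} : Multiset Γ) := by
  simp only [ms, Multiset.insert_eq_cons, ← Multiset.singleton_add]
  abel

/-- LS2b -/
theorem YY {C : Finset Γ} (hneg : ∀ s ∈ C, -s ∈ C) (_hne : ∀ s ∈ C, s ≠ -s)
    (I : Multiset Γ → ℝ) (I0 : ∀ U, 0 ≤ I U) :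
    3 * (∑ T ∈ TY C, I {T.1, -T.1, T.2.1, -T.2.1, T.2.2, -T.2.2}) -
      2 * (∑ x ∈ C, I {x, -x, x, -x, x, -x}) ≤ ∑ T ∈ TY C, ∑ T' ∈ TY C, I (ms T + ms T') := by
  classical
  set K : Γ × Γ × Γ → ℝ := fun T => I {T.1, -T.1, T.2.1, -T.2.1, T.2.2, -T.2.2} with hK
  -- membership
  have hmem : ∀ a b c : Γ, (a, b, c) ∈ TY C ↔
      (a ∈ C ∧ b ∈ C ∧ c ∈ C) ∧ a ≠ -b ∧ b ≠ -c ∧ a ≠ -c := by
    intro a b c
    simp only [TY, ap, Finset.mem_filter, Finset.mem_product, not_or, ne_eq]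
  -- the lower bound for one triple
  have hone : ∀ T ∈ TY C, (3 * K T - 2 * (if T.1 = T.2.1 ∧ T.2.1 = T.2.2 then K T else 0)) ≤
      ∑ T' ∈ TY C, I (ms T + ms T') := by
    rintro ⟨a, b, c⟩ hT
    obtain ⟨⟨ha, hb, hc⟩, h1, h2, h3⟩ := (hmem a b c).1 hT
    have m1 : (-a, -b, -c) ∈ TY C := by
      rw [hmem]
      refine ⟨⟨hneg a ha, hneg b hb, hneg c hc⟩, ?_, ?_, ?_⟩
      · intro h; exact h1 (neg_injective h)
      · intro h; exact h2 (neg_injective h)
      · intro h; exact h3 (neg_injective h)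
    have m2 : (-b, -c, -a) ∈ TY C := by
      rw [hmem]
      refine ⟨⟨hneg b hb, hneg c hc, hneg a ha⟩, ?_, ?_, ?_⟩
      · intro h; exact h2 (neg_injective h)
      · intro h; exact h3 (by rw [neg_neg] at h; rw [← h, ])
      · intro h; exact h1 (by rw [neg_neg] at h; rw [← h])
    have m3 : (-c, -a, -b) ∈ TY C := by
      rw [hmem]
      refine ⟨⟨hneg c hc, hneg a ha, hneg b hb⟩, ?_, ?_, ?_⟩
      · intro h; exact h3 (by rw [neg_neg] at h; rw [← h])
      · intro h; exact h1 (neg_injective h)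
      · intro h; exact h2 (by rw [neg_neg] at h; rw [← h])
    by_cases hc' : a = b ∧ b = c
    · obtain ⟨rfl, rfl⟩ := hc'
      have : I (ms (a, a, a) + ms (-a, -a, -a)) ≤ ∑ T' ∈ TY C, I (ms (a, a, a) + ms T') :=
        Finset.single_le_sum (f := fun T' => I (ms (a, a, a) + ms T')) (fun T' _ => I0 _) m1
      rw [ms_eq1] at this
      simp only [hK, and_self, if_true]
      linarith
    · have hsub : ({(-a, -b, -c), (-b, -c, -a), (-c, -a, -b)} : Finset (Γ × Γ × Γ)) ⊆ TY C := by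
        intro T' hT'
        simp only [Finset.mem_insert, Finset.mem_singleton] at hT'
        rcases hT' with rfl | rfl | rfl
        · exact m1
        · exact m2
        · exact m3
      have hs := Finset.sum_le_sum_of_subset_of_nonneg hsub
        (f := fun T' => I (ms (a, b, c) + ms T')) (fun T' _ _ => I0 _)
      have n12 : ((-a, -b, -c) : Γ × Γ × Γ) ≠ (-b, -c, -a) := by
        intro h
        simp only [Prod.mk.injEq, neg_inj] at h
        exact hc' ⟨h.1, h.2.1⟩
      have n13 : ((-a, -b, -c) : Γ × Γ × Γ) ≠ (-c, -a, -b) := by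
        intro h
        simp only [Prod.mk.injEq, neg_inj] at h
        exact hc' ⟨h.2.1.symm, h.2.2.symm⟩
      have n23 : ((-b, -c, -a) : Γ × Γ × Γ) ≠ (-c, -a, -b) := by
        intro h
        simp only [Prod.mk.injEq, neg_inj] at h
        exact hc' ⟨h.2.2, h.1⟩
      rw [Finset.sum_insert (by simp [n12, n13]), Finset.sum_insert (by simp [n23]),
        Finset.sum_singleton] at hs
      simp only [ms_eq1, ms_eq2, ms_eq3] at hs
      rw [if_neg hc']
      simp only [hK]
      linarith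
  -- the constant triples
  have hconst : ∑ T ∈ TY C, (if T.1 = T.2.1 ∧ T.2.1 = T.2.2 then K T else 0) ≤
      ∑ x ∈ C, I {x, -x, x, -x, x, -x} := by
    rw [← Finset.sum_filter]
    have hinj : ∀ x ∈ C, ∀ y ∈ C, ((x, x, x) : Γ × Γ × Γ) = (y, y, y) → x = y := by
      intro x _ y _ h
      exact (Prod.mk.inj h).1
    have himg : (TY C).filter (fun T => T.1 = T.2.1 ∧ T.2.1 = T.2.2) ⊆
        C.image (fun x => ((x, x, x) : Γ × Γ × Γ)) := by
      rintro ⟨a, b, c⟩ hT
      rw [Finset.mem_filter] at hT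
      obtain ⟨hT, h1, h2⟩ := hT
      dsimp only at h1 h2
      subst h1; subst h2
      exact Finset.mem_image.2 ⟨a, ((hmem a a a).1 hT).1.1, rfl⟩
    calc ∑ T ∈ (TY C).filter (fun T => T.1 = T.2.1 ∧ T.2.1 = T.2.2), K T
        ≤ ∑ T ∈ C.image (fun x => ((x, x, x) : Γ × Γ × Γ)), K T :=
          Finset.sum_le_sum_of_subset_of_nonneg himg (fun T _ _ => I0 _)
      _ = ∑ x ∈ C, K (x, x, x) := Finset.sum_image hinj
      _ = ∑ x ∈ C, I {x, -x, x, -x, x, -x} := rfl
  have hsum := Finset.sum_le_sum hone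
  rw [Finset.sum_sub_distrib, ← Finset.mul_sum, ← Finset.mul_sum] at hsum
  simp only [hK] at hsum hconst ⊢
  linarith

end Pool.Agent.N954.LS
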