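import Pool.Agent.N332.SK.Defs5

set_option autoImplicit false

/-! KT3, KT5: real inequalities for the tenth moment (project LS, part 3, helper332). -/

namespace Pool.Agent.N954.LS

open Pool.Agent.N332.SK

theorem c5_pos : 0 < c5 := by
  unfold c5
  positivity

theorem c5_pow : c5 ^ 5 = 52488 / 7 := by
  unfold c5
  rw [← Real.rpow_natCast, ← Real.rpow_mul (by norm_num)]
  norm_num

theorem c5_lo : 1489 / 250 ≤ c5 := by
  by_contra h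
  rw [not_le] at h
  have := pow_lt_pow_left₀ h c5_pos.le (by norm_num : (5:ℕ) ≠ 0)
  rw [c5_pow] at this
  norm_num at this

/-- `κ = 9 / c5` -/
theorem kap : 0 < 9 / c5 ∧ (9 / c5) ^ 5 = 63 / 8 ∧ (3777 / 2500 : ℝ) ≤ 9 / c5 ∧
    9 / c5 ≤ 15111 / 10000 := by
  have h0 : 0 < 9 / c5 := div_pos (by norm_num) c5_pos
  have h5 : (9 / c5) ^ 5 = 63 / 8 := by
    rw [div_pow, c5_pow]
    norm_num
  refine ⟨h0, h5, ?_, ?_⟩
  · by_contra h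
    rw [not_le] at h
    have := pow_lt_pow_left₀ h h0.le (by norm_num : (5:ℕ) ≠ 0)
    rw [h5] at this
    norm_num at this
  · by_contra h
    rw [not_le] at h
    have := pow_lt_pow_left₀ h (by norm_num) (by norm_num : (5:ℕ) ≠ 0)
    rw [h5] at this
    norm_num at this

/-- KT3: pointwise inequality -/
theorem pw5 {μ w ν : ℝ} (hμ : 0 ≤ μ) (hw : 0 ≤ w) (hν : 0 ≤ ν)
    (h : ν ^ 5 = 63 / 8 * μ ^ 5 + 140 / 9 * μ ^ 3 * w + 32 / 15 * μ * w ^ 2) :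
    9 / c5 * μ ≤ ν ∧ μ * w ≤ 367 / 500 * ν ^ 2 * (ν - 9 / c5 * μ) := by
  obtain ⟨k0, k5, k1, k2⟩ := kap
  set κ := 9 / c5 with hκ
  have h' : ν ^ 5 = (κ * μ) ^ 5 + 140 / 9 * μ ^ 3 * w + 32 / 15 * μ * w ^ 2 := by
    rw [mul_pow, k5]; exact h
  have t1 : 0 ≤ 140 / 9 * μ ^ 3 * w := by positivity
  have t2 : 0 ≤ 32 / 15 * μ * w ^ 2 := by positivity
  have hm : κ * μ ≤ ν := by
    by_contra hc
    rw [not_le] at hc
    have := pow_lt_pow_left₀ hc hν (by norm_num : (5:ℕ) ≠ 0)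
    linarith
  refine ⟨hm, ?_⟩
  by_contra hcon
  rw [not_le] at hcon
  set m := κ * μ with hmdef
  have hd : 0 ≤ ν - m := by linarith
  have hX0 : 0 ≤ 367 / 500 * ν ^ 2 * (ν - m) := by positivity
  have hx : 0 < μ * w := lt_of_le_of_lt hX0 hcon
  have hμ0 : 0 < μ := by
    rcases hμ.eq_or_lt with h0 | h0
    · rw [← h0, zero_mul] at hx
      exact absurd hx (lt_irrefl _)
    · exact h0
  have hm0 : 0 < m := by positivity
  have e1 : κ ^ 2 * (m * (ν ^ 5 - m ^ 5)) =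
      140 / 9 * m ^ 3 * (μ * w) + 32 / 15 * κ ^ 3 * (μ * w) ^ 2 := by
    have : ν ^ 5 - m ^ 5 = 140 / 9 * μ ^ 3 * w + 32 / 15 * μ * w ^ 2 := by linarith
    rw [this, hmdef]
    ring
  set X := 367 / 500 * ν ^ 2 * (ν - m) with hX
  have s1 : 140 / 9 * m ^ 3 * X < 140 / 9 * m ^ 3 * (μ * w) :=
    mul_lt_mul_of_pos_left hcon (by positivity)
  have s2 : 32 / 15 * κ ^ 3 * X ^ 2 ≤ 32 / 15 * κ ^ 3 * (μ * w) ^ 2 := by
    apply mul_le_mul_of_nonneg_left _ (by positivity)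
    exact pow_le_pow_left₀ hX0 hcon.le 2
  have c1 : 5 * κ ^ 2 ≤ 140 / 9 * (367 / 500) := by nlinarith
  have c2 : 217 / 125 ≤ 32 / 15 * κ * (367 / 500) ^ 2 := by nlinarith
  have s3 : κ ^ 2 * (5 * m ^ 3 * ν ^ 2 * (ν - m)) ≤ 140 / 9 * m ^ 3 * X := by
    have : 0 ≤ m ^ 3 * ν ^ 2 * (ν - m) := by positivity
    have h2 := mul_le_mul_of_nonneg_right c1 this
    rw [hX]
    calc κ ^ 2 * (5 * m ^ 3 * ν ^ 2 * (ν - m)) = 5 * κ ^ 2 * (m ^ 3 * ν ^ 2 * (ν - m)) := by ring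
      _ ≤ 140 / 9 * (367 / 500) * (m ^ 3 * ν ^ 2 * (ν - m)) := h2
      _ = _ := by ring
  have s4 : κ ^ 2 * (217 / 125 * ν ^ 4 * (ν - m) ^ 2) ≤ 32 / 15 * κ ^ 3 * X ^ 2 := by
    have : 0 ≤ κ ^ 2 * (ν ^ 4 * (ν - m) ^ 2) := by positivity
    have h2 := mul_le_mul_of_nonneg_right c2 this
    rw [hX]
    calc κ ^ 2 * (217 / 125 * ν ^ 4 * (ν - m) ^ 2) =
        217 / 125 * (κ ^ 2 * (ν ^ 4 * (ν - m) ^ 2)) := by ring
      _ ≤ 32 / 15 * κ * (367 / 500) ^ 2 * (κ ^ 2 * (ν ^ 4 * (ν - m) ^ 2)) := h2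
      _ = _ := by ring
  have s5 : κ ^ 2 * (5 * m ^ 3 * ν ^ 2 * (ν - m) + 217 / 125 * ν ^ 4 * (ν - m) ^ 2) <
      κ ^ 2 * (m * (ν ^ 5 - m ^ 5)) := by
    rw [e1]
    linarith
  have s6 := lt_of_mul_lt_mul_left s5 (by positivity)
  have s7 : 5 * m ^ 3 * ν ^ 2 * (ν - m) + 217 / 125 * ν ^ 4 * (ν - m) ^ 2 - m * (ν ^ 5 - m ^ 5) =
      (ν - m) ^ 2 * ((m ^ 2 + m * ν - ν ^ 2) ^ 2 + ν ^ 2 * (m * (ν - m) + 92 / 125 * ν ^ 2)) := by
    ring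
  have s8 : 0 ≤ (ν - m) ^ 2 * ((m ^ 2 + m * ν - ν ^ 2) ^ 2 +
      ν ^ 2 * (m * (ν - m) + 92 / 125 * ν ^ 2)) := by positivity
  linarith

/-- bounds from squares -/
theorem le_of_sq {a b c d : ℝ} (hb : 0 ≤ b) (h : a ^ 2 ≤ d) (hd : d ≤ c * b ^ 2) {r : ℝ}
    (hr : 0 ≤ r) (hc : c ≤ r ^ 2) : a ≤ r * b := by
  have h1 : a ^ 2 ≤ (r * b) ^ 2 :=
    calc a ^ 2 ≤ d := h
      _ ≤ c * b ^ 2 := hd
      _ ≤ r ^ 2 * b ^ 2 := mul_le_mul_of_nonneg_right hc (by positivity)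
      _ = (r * b) ^ 2 := by ring
  exact (abs_le_of_sq_le_sq' h1 (by positivity)).2

/-- KT5: the real inequality -/
theorem PI5 {y A2 A3 A4 A5 A6 A7 A8 A9 : ℝ} (hy0 : 0 ≤ y) (hy1 : y ≤ 17 / 250) (h2 : 0 ≤ A2)
    (h4 : 0 ≤ A4) (h6 : 0 ≤ A6) (h8 : 0 ≤ A8) (h2' : 9 / c5 * A2 ≤ y)
    (h3 : A3 ^ 2 ≤ 367 / 500 * y ^ 2 * (y - 9 / c5 * A2)) (h4' : A4 ^ 2 ≤ A2 * A6)
    (h6' : A6 ^ 2 ≤ A4 * A8) (h8' : A8 ^ 2 ≤ A6 * y ^ 5) (h5 : A5 ^ 2 ≤ A4 * A6)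
    (h7 : A7 ^ 2 ≤ A6 * A8) (h9 : A9 ^ 2 ≤ A8 * y ^ 5) :
    1 + 45 * A2 + 120 * A3 + 210 * A4 + 252 * A5 + 210 * A6 + 120 * A7 + 45 * A8 + 10 * A9 +
      y ^ 5 ≤ 1 + 5 * c5 * y + 268 * y ^ 2 + 700 * y ^ 3 := by
  obtain ⟨k0, k5, k1, k2⟩ := kap
  have hc0 := c5_pos
  have hc1 := c5_lo
  -- B = y - κ A2
  obtain ⟨B, hB⟩ : ∃ B, B = y - 9 / c5 * A2 := ⟨_, rfl⟩
  have hB0 : 0 ≤ B := by rw [hB]; linarith
  rw [← hB] at h3
  have e2 : 45 * A2 = 5 * c5 * y - 5 * c5 * B := by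
    rw [hB]
    field_simp
    ring
  have b3 : 120 * A3 ≤ 5 * c5 * B + 4437 / 50 * y ^ 2 := by
    have hP : 0 ≤ 5 * c5 * B + 4437 / 50 * y ^ 2 := by positivity
    have hsq : (120 * A3) ^ 2 ≤ (5 * c5 * B + 4437 / 50 * y ^ 2) ^ 2 := by
      have s1 : (120 * A3) ^ 2 ≤ 14400 * (367 / 500 * y ^ 2 * B) := by nlinarith
      have s2 : 14400 * (367 / 500) ≤ 4 * 5 * c5 * (4437 / 50) := by nlinarith
      have s3 : 0 ≤ y ^ 2 * B := by positivity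
      have s4 := mul_le_mul_of_nonneg_right s2 s3
      nlinarith [sq_nonneg (5 * c5 * B - 4437 / 50 * y ^ 2)]
    exact (abs_le_of_sq_le_sq' hsq hP).2
  -- A2
  have hA2 : A2 ≤ 331 / 500 * y := by
    have : (3777 / 2500 : ℝ) * A2 ≤ y := (mul_le_mul_of_nonneg_right k1 h2).trans h2'
    nlinarith
  -- A6
  have q6 : A6 ^ 2 ≤ A2 * y ^ 5 := by
    rcases h6.eq_or_lt with h0 | h0
    · rw [← h0]
      have : 0 ≤ A2 * y ^ 5 := by positivity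
      simpa using this
    · have s1 : (A6 ^ 2) ^ 2 ≤ (A2 * A6) * (A6 * y ^ 5) := by
        calc (A6 ^ 2) ^ 2 ≤ (A4 * A8) ^ 2 := pow_le_pow_left₀ (by positivity) h6' 2
          _ = A4 ^ 2 * A8 ^ 2 := by ring
          _ ≤ (A2 * A6) * (A6 * y ^ 5) := mul_le_mul h4' h8' (by positivity) (by positivity)
      have s2 : A6 ^ 2 * A6 ^ 2 ≤ A6 ^ 2 * (A2 * y ^ 5) := by nlinarith
      exact le_of_mul_le_mul_left s2 (by positivity)
  obtain ⟨x, hx⟩ : ∃ x, x = Real.sqrt y := ⟨_, rfl⟩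
  have hx0 : 0 ≤ x := by rw [hx]; exact Real.sqrt_nonneg y
  have hxy : y = x ^ 2 := by rw [hx, Real.sq_sqrt hy0]
  have hx1 : x ≤ 163 / 625 := by
    by_contra hc
    rw [not_le] at hc
    nlinarith
  subst hxy
  have a6 : A6 ≤ 8137 / 10000 * x ^ 6 := by
    refine le_of_sq (c := 331 / 500) (by positivity) q6 ?_ (by norm_num) (by norm_num)
    have : 0 ≤ (x ^ 2) ^ 5 := by positivity
    calc A2 * (x ^ 2) ^ 5 ≤ 331 / 500 * x ^ 2 * (x ^ 2) ^ 5 := mul_le_mul_of_nonneg_right hA2 this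
      _ = _ := by ring
  have a4 : A4 ≤ 367 / 500 * x ^ 4 := by
    refine le_of_sq (c := 331 / 500 * (8137 / 10000)) (by positivity) h4' ?_ (by norm_num)
      (by norm_num)
    calc A2 * A6 ≤ (331 / 500 * x ^ 2) * (8137 / 10000 * x ^ 6) :=
          mul_le_mul hA2 a6 h6 (by positivity)
      _ = _ := by ring
  have a8 : A8 ≤ 9021 / 10000 * x ^ 8 := by
    refine le_of_sq (c := 8137 / 10000) (by positivity) h8' ?_ (by norm_num) (by norm_num)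
    calc A6 * (x ^ 2) ^ 5 ≤ (8137 / 10000 * x ^ 6) * (x ^ 2) ^ 5 :=
          mul_le_mul_of_nonneg_right a6 (by positivity)
      _ = _ := by ring
  have a5 : A5 ≤ 773 / 1000 * x ^ 5 := by
    refine le_of_sq (c := 367 / 500 * (8137 / 10000)) (by positivity) h5 ?_ (by norm_num)
      (by norm_num)
    calc A4 * A6 ≤ (367 / 500 * x ^ 4) * (8137 / 10000 * x ^ 6) :=
          mul_le_mul a4 a6 h6 (by positivity)
      _ = _ := by ring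
  have a7 : A7 ≤ 857 / 1000 * x ^ 7 := by
    refine le_of_sq (c := 8137 / 10000 * (9021 / 10000)) (by positivity) h7 ?_ (by norm_num)
      (by norm_num)
    calc A6 * A8 ≤ (8137 / 10000 * x ^ 6) * (9021 / 10000 * x ^ 8) :=
          mul_le_mul a6 a8 h8 (by positivity)
      _ = _ := by ring
  have a9 : A9 ≤ 95 / 100 * x ^ 9 := by
    refine le_of_sq (c := 9021 / 10000) (by positivity) h9 ?_ (by norm_num) (by norm_num)
    calc A8 * (x ^ 2) ^ 5 ≤ (9021 / 10000 * x ^ 8) * (x ^ 2) ^ 5 :=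
          mul_le_mul_of_nonneg_right a8 (by positivity)
      _ = _ := by ring
  -- the polynomial
  have p1 : 4437 / 50 * (x ^ 2) ^ 2 + 210 * (367 / 500 * x ^ 4) + 252 * (773 / 1000 * x ^ 5) +
      210 * (8137 / 10000 * x ^ 6) + 120 * (857 / 1000 * x ^ 7) + 45 * (9021 / 10000 * x ^ 8) +
      10 * (95 / 100 * x ^ 9) + (x ^ 2) ^ 5 ≤ 268 * (x ^ 2) ^ 2 + 700 * (x ^ 2) ^ 3 := by
    have x2 : x ^ 2 ≤ 17 / 250 := hy1
    have x3 : x ^ 3 ≤ 18 / 1000 := by nlinarith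
    have x4 : x ^ 4 ≤ 5 / 1000 := by nlinarith
    have key : 4437 / 50 + 210 * (367 / 500) + 252 * (773 / 1000) * x +
        210 * (8137 / 10000) * x ^ 2 + x ^ 2 * (120 * (857 / 1000) * x + 45 * (9021 / 10000) * x ^ 2 +
        10 * (95 / 100) * x ^ 3 + x ^ 4) ≤ 268 + 700 * x ^ 2 := by
      have k1 : 120 * (857 / 1000) * x + 45 * (9021 / 10000) * x ^ 2 +
        10 * (95 / 100) * x ^ 3 + x ^ 4 ≤ 30 := by nlinarith
      have k2 := mul_le_mul_of_nonneg_left k1 (sq_nonneg x)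
      nlinarith [sq_nonneg (x - 195 / 1000)]
    have k3 := mul_le_mul_of_nonneg_left key (by positivity : 0 ≤ x ^ 4)
    nlinarith
  linarith

end Pool.Agent.N954.LS
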