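import Pool.Agent.N332.SK.Defs5
import Pool.Agent.N286.LS.Star4Aux

set_option autoImplicit false

/-! KT4: the class inequality in `L^10` (project LS, part 3, helper332). -/

namespace Pool.Agent.N954.LS

open Finset Pool.Agent.H384R3.SPk Pool.Agent.N356.SP MeasureTheory
open Pool.Agent.N645.LS (cosp_cont)
open Pool.Agent.N286.LS (cs)
open Pool.Agent.N332.SK

private theorem young32 {a b : ℝ} (ha : 0 ≤ a) (hb : 0 ≤ b) :
    5 * (a ^ 3 * b ^ 2) ≤ 3 * a ^ 5 + 2 * b ^ 5 := by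
  have h : 3 * a ^ 5 + 2 * b ^ 5 - 5 * (a ^ 3 * b ^ 2) =
      (a - b) ^ 2 * (3 * a ^ 3 + 6 * a ^ 2 * b + 4 * a * b ^ 2 + 2 * b ^ 3) := by ring
  have : 0 ≤ (a - b) ^ 2 * (3 * a ^ 3 + 6 * a ^ 2 * b + 4 * a * b ^ 2 + 2 * b ^ 3) := by positivity
  linarith

private theorem young41 {a b : ℝ} (ha : 0 ≤ a) (hb : 0 ≤ b) :
    5 * (a ^ 4 * b) ≤ 4 * a ^ 5 + b ^ 5 := by
  have h : 4 * a ^ 5 + b ^ 5 - 5 * (a ^ 4 * b) =
      (a - b) ^ 2 * (4 * a ^ 3 + 3 * a ^ 2 * b + 2 * a * b ^ 2 + b ^ 3) := by ring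
  have : 0 ≤ (a - b) ^ 2 * (4 * a ^ 3 + 3 * a ^ 2 * b + 2 * a * b ^ 2 + b ^ 3) := by positivity
  linarith

/-- Hoelder's inequality with exponents `5/3`, `5/2` and `5/4`, `5`, positive `y` -/
private theorem hold_pos {q ν : ℝ → ℝ} (hq : Continuous q) (hν : Continuous ν)
    (ν0 : ∀ x, 0 ≤ ν x) {G y : ℝ} (hy : 0 < y) (hG : ∫ x in (0:ℝ)..1, q x ^ 10 ≤ G)
    (hF : ∫ x in (0:ℝ)..1, ν x ^ 5 ≤ G * y ^ 5) :
    ∫ x in (0:ℝ)..1, q x ^ 6 * ν x ^ 2 ≤ G * y ^ 2 ∧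
      ∫ x in (0:ℝ)..1, q x ^ 8 * ν x ≤ G * y := by
  have c10 : Continuous fun x => q x ^ 10 := hq.pow 10
  have c5 : Continuous fun x => ν x ^ 5 := hν.pow 5
  have y3 : 0 < y ^ 3 := by positivity
  have y4 : 0 < y ^ 4 := by positivity
  have i1 : ∀ a : ℝ, IntervalIntegrable (fun x => a * q x ^ 10) volume 0 1 := fun a =>
    (continuous_const.mul c10).intervalIntegrable _ _
  have i2 : ∀ a : ℝ, IntervalIntegrable (fun x => a * ν x ^ 5) volume 0 1 := fun a =>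
    (continuous_const.mul c5).intervalIntegrable _ _
  have i3 : IntervalIntegrable (fun x => q x ^ 6 * ν x ^ 2) volume 0 1 :=
    ((hq.pow 6).mul (hν.pow 2)).intervalIntegrable _ _
  have i4 : IntervalIntegrable (fun x => q x ^ 8 * ν x) volume 0 1 :=
    ((hq.pow 8).mul hν).intervalIntegrable _ _
  constructor
  · have h1 : ∫ x in (0:ℝ)..1, q x ^ 6 * ν x ^ 2 ≤
        ∫ x in (0:ℝ)..1, (3 / 5 * y ^ 2 * q x ^ 10 + 2 / 5 / y ^ 3 * ν x ^ 5) := by
      refine intervalIntegral.integral_mono_on zero_le_one i3 ((i1 _).add (i2 _)) fun x _ => ?_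
      have h2 := young32 (sq_nonneg (q x)) (div_nonneg (ν0 x) hy.le)
      have e1 : 5 * ((q x ^ 2) ^ 3 * (ν x / y) ^ 2) = 5 * (q x ^ 6 * ν x ^ 2) / y ^ 2 := by
        field_simp
      have e2 : 3 * (q x ^ 2) ^ 5 + 2 * (ν x / y) ^ 5 =
          5 * (3 / 5 * y ^ 2 * q x ^ 10 + 2 / 5 / y ^ 3 * ν x ^ 5) / y ^ 2 := by
        field_simp
      rw [e1, e2, div_le_div_iff_of_pos_right (by positivity)] at h2
      linarith
    refine h1.trans ?_
    rw [intervalIntegral.integral_add (i1 _) (i2 _), intervalIntegral.integral_const_mul,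
      intervalIntegral.integral_const_mul]
    have h3 : 3 / 5 * y ^ 2 * (∫ x in (0:ℝ)..1, q x ^ 10) ≤ 3 / 5 * y ^ 2 * G :=
      mul_le_mul_of_nonneg_left hG (by positivity)
    have h4 : 2 / 5 / y ^ 3 * (∫ x in (0:ℝ)..1, ν x ^ 5) ≤ 2 / 5 / y ^ 3 * (G * y ^ 5) :=
      mul_le_mul_of_nonneg_left hF (by positivity)
    have h5 : 2 / 5 / y ^ 3 * (G * y ^ 5) = 2 / 5 * (G * y ^ 2) := by
      field_simp
    linarith
  · have h1 : ∫ x in (0:ℝ)..1, q x ^ 8 * ν x ≤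
        ∫ x in (0:ℝ)..1, (4 / 5 * y * q x ^ 10 + 1 / 5 / y ^ 4 * ν x ^ 5) := by
      refine intervalIntegral.integral_mono_on zero_le_one i4 ((i1 _).add (i2 _)) fun x _ => ?_
      have h2 := young41 (sq_nonneg (q x)) (div_nonneg (ν0 x) hy.le)
      have e1 : 5 * ((q x ^ 2) ^ 4 * (ν x / y)) = 5 * (q x ^ 8 * ν x) / y := by
        field_simp
      have e2 : 4 * (q x ^ 2) ^ 5 + (ν x / y) ^ 5 =
          5 * (4 / 5 * y * q x ^ 10 + 1 / 5 / y ^ 4 * ν x ^ 5) / y := by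
        field_simp
      rw [e1, e2, div_le_div_iff_of_pos_right hy] at h2
      linarith
    refine h1.trans ?_
    rw [intervalIntegral.integral_add (i1 _) (i2 _), intervalIntegral.integral_const_mul,
      intervalIntegral.integral_const_mul]
    have h3 : 4 / 5 * y * (∫ x in (0:ℝ)..1, q x ^ 10) ≤ 4 / 5 * y * G :=
      mul_le_mul_of_nonneg_left hG (by positivity)
    have h4 : 1 / 5 / y ^ 4 * (∫ x in (0:ℝ)..1, ν x ^ 5) ≤ 1 / 5 / y ^ 4 * (G * y ^ 5) :=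
      mul_le_mul_of_nonneg_left hF (by positivity)
    have h5 : 1 / 5 / y ^ 4 * (G * y ^ 5) = 1 / 5 * (G * y) := by
      field_simp
    linarith

/-- the same for `y ≥ 0` -/
private theorem hold_nn {q ν : ℝ → ℝ} (hq : Continuous q) (hν : Continuous ν)
    (ν0 : ∀ x, 0 ≤ ν x) {G y : ℝ} (hG0 : 0 < G) (hy : 0 ≤ y)
    (hG : ∫ x in (0:ℝ)..1, q x ^ 10 ≤ G)
    (hF : ∫ x in (0:ℝ)..1, ν x ^ 5 ≤ G * y ^ 5) :
    ∫ x in (0:ℝ)..1, q x ^ 6 * ν x ^ 2 ≤ G * y ^ 2 ∧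
      ∫ x in (0:ℝ)..1, q x ^ 8 * ν x ≤ G * y := by
  have key : ∀ z : ℝ, y < z → ∫ x in (0:ℝ)..1, q x ^ 6 * ν x ^ 2 ≤ G * z ^ 2 ∧
      ∫ x in (0:ℝ)..1, q x ^ 8 * ν x ≤ G * z := by
    intro z hz
    refine hold_pos hq hν ν0 (lt_of_le_of_lt hy hz) hG (hF.trans ?_)
    exact mul_le_mul_of_nonneg_left (pow_le_pow_left₀ hy hz.le 5) hG0.le
  have lin : ∀ I : ℝ, (∀ z, y < z → I ≤ G * z) → I ≤ G * y := by
    intro I hI
    by_contra hc
    rw [not_le] at hc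
    have h1 : y < I / G := by rw [lt_div_iff₀ hG0]; linarith
    have h2 := hI ((I / G + y) / 2) (by linarith)
    have h3 : G * ((I / G + y) / 2) = (I + G * y) / 2 := by field_simp
    rw [h3] at h2
    linarith
  have quad : ∀ I : ℝ, (∀ z, y < z → I ≤ G * z ^ 2) → I ≤ G * y ^ 2 := by
    intro I hI
    by_contra hc
    rw [not_le] at hc
    have h1 : y ^ 2 < I / G := by rw [lt_div_iff₀ hG0]; linarith
    have h4 : 0 ≤ (I / G + y ^ 2) / 2 := by
      have := sq_nonneg y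
      linarith
    have h5 : y < Real.sqrt ((I / G + y ^ 2) / 2) := by
      apply Real.lt_sqrt_of_sq_lt
      linarith
    have h2 := hI _ h5
    rw [Real.sq_sqrt h4] at h2
    have h3 : G * ((I / G + y ^ 2) / 2) = (I + G * y ^ 2) / 2 := by field_simp
    rw [h3] at h2
    linarith
  exact ⟨quad _ fun z hz => (key z hz).1, lin _ fun z hz => (key z hz).2⟩

theorem star5_of {m : ℕ} {C : Finset (ZMod m)} {θ : ZMod m → ZMod m → ℝ} {g f : ℤ →₀ ℝ}
    (hmu : Continuous (muf C f)) (hwf : Continuous (wf C θ f))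
    (h10 : 63 / 8 * (∫ x in (0:ℝ)..1, muf C f x ^ 5) +
      140 / 9 * (∫ x in (0:ℝ)..1, muf C f x ^ 3 * wf C θ f x) +
      32 / 15 * (∫ x in (0:ℝ)..1, muf C f x * wf C θ f x ^ 2) ≤ Mc 5 f)
    (h2 : AJ 8 2 g f = ∫ x in (0:ℝ)..1, cosp g x ^ 8 * muf C f x)
    (h3 : ∃ T : ℝ → ℝ, Continuous T ∧ (∀ x, T x ^ 2 ≤ muf C f x * wf C θ f x) ∧
      AJ 7 3 g f = ∫ x in (0:ℝ)..1, cosp g x ^ 7 * T x)
    (hpw : ∀ {μ w ν : ℝ}, 0 ≤ μ → 0 ≤ w → 0 ≤ ν →
      ν ^ 5 = 63 / 8 * μ ^ 5 + 140 / 9 * μ ^ 3 * w + 32 / 15 * μ * w ^ 2 →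
      9 / c5 * μ ≤ ν ∧ μ * w ≤ 367 / 500 * ν ^ 2 * (ν - 9 / c5 * μ))
    {G y : ℝ} (hG0 : 0 < G) (hy : 0 ≤ y)
    (hG : Mc 5 g ≤ G) (hF : Mc 5 f ≤ G * y ^ 5) :
    0 ≤ AJ 8 2 g f ∧ 9 / c5 * AJ 8 2 g f ≤ G * y ∧
      AJ 7 3 g f ^ 2 ≤ 367 / 500 * G * y ^ 2 * (G * y - 9 / c5 * AJ 8 2 g f) := by
  have hg := cosp_cont g
  have mu0 : ∀ x, 0 ≤ muf C f x := fun x => by
    unfold muf
    exact Finset.sum_nonneg fun c _ => by positivity
  have w0 : ∀ x, 0 ≤ wf C θ f x := fun x => by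
    unfold wf
    exact Finset.sum_nonneg fun c _ => by positivity
  obtain ⟨ν, hν⟩ : ∃ ν : ℝ → ℝ, ν = fun x => (63 / 8 * muf C f x ^ 5 +
    140 / 9 * muf C f x ^ 3 * wf C θ f x + 32 / 15 * muf C f x * wf C θ f x ^ 2) ^
      ((1:ℝ) / 5) := ⟨_, rfl⟩
  have hS0 : ∀ x, 0 ≤ 63 / 8 * muf C f x ^ 5 +
      140 / 9 * muf C f x ^ 3 * wf C θ f x + 32 / 15 * muf C f x * wf C θ f x ^ 2 := fun x => by
    have := mu0 x
    have := w0 x
    positivity
  have ν0 : ∀ x, 0 ≤ ν x := fun x => by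
    rw [hν]
    exact Real.rpow_nonneg (hS0 x) _
  have ν5 : ∀ x, ν x ^ 5 = 63 / 8 * muf C f x ^ 5 +
      140 / 9 * muf C f x ^ 3 * wf C θ f x + 32 / 15 * muf C f x * wf C θ f x ^ 2 := fun x => by
    rw [hν]
    show ((63 / 8 * muf C f x ^ 5 + 140 / 9 * muf C f x ^ 3 * wf C θ f x +
      32 / 15 * muf C f x * wf C θ f x ^ 2) ^ ((1:ℝ) / 5)) ^ 5 = _
    rw [← Real.rpow_natCast, ← Real.rpow_mul (hS0 x)]
    norm_num
  have νc : Continuous ν := by
    rw [hν]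
    refine Continuous.rpow_const ?_ fun x => Or.inr (by norm_num)
    fun_prop
  have hpw' : ∀ x, 9 / c5 * muf C f x ≤ ν x ∧
      muf C f x * wf C θ f x ≤ 367 / 500 * ν x ^ 2 * (ν x - 9 / c5 * muf C f x) :=
    fun x => hpw (mu0 x) (w0 x) (ν0 x) (ν5 x)
  -- the fifth moment of `ν`
  have hν5 : ∫ x in (0:ℝ)..1, ν x ^ 5 ≤ G * y ^ 5 := by
    refine le_trans (le_of_eq ?_) (h10.trans hF)
    simp_rw [ν5]
    rw [intervalIntegral.integral_add, intervalIntegral.integral_add,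
      intervalIntegral.integral_const_mul]
    · congr 2
      · rw [← intervalIntegral.integral_const_mul]
        refine intervalIntegral.integral_congr fun x _ => ?_
        show _ = 140 / 9 * (muf C f x ^ 3 * wf C θ f x)
        ring
      · rw [← intervalIntegral.integral_const_mul]
        refine intervalIntegral.integral_congr fun x _ => ?_
        show _ = 32 / 15 * (muf C f x * wf C θ f x ^ 2)
        ring
    · exact (by fun_prop : Continuous fun x => 63 / 8 * muf C f x ^ 5).intervalIntegrable _ _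
    · exact (by fun_prop : Continuous fun x =>
        140 / 9 * muf C f x ^ 3 * wf C θ f x).intervalIntegrable _ _
    · exact (by fun_prop : Continuous fun x => 63 / 8 * muf C f x ^ 5 +
        140 / 9 * muf C f x ^ 3 * wf C θ f x).intervalIntegrable _ _
    · exact (by fun_prop : Continuous fun x =>
        32 / 15 * muf C f x * wf C θ f x ^ 2).intervalIntegrable _ _
  have hg10 : ∫ x in (0:ℝ)..1, cosp g x ^ 10 ≤ G := hG
  obtain ⟨b62, b81⟩ := hold_nn hg νc ν0 hG0 hy hg10 hν5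
  have hsub : ∫ x in (0:ℝ)..1, cosp g x ^ 8 * (ν x - 9 / c5 * muf C f x) =
      (∫ x in (0:ℝ)..1, cosp g x ^ 8 * ν x) - 9 / c5 * AJ 8 2 g f := by
    rw [h2, ← intervalIntegral.integral_const_mul, ← intervalIntegral.integral_sub]
    · refine intervalIntegral.integral_congr fun x _ => ?_
      show cosp g x ^ 8 * (ν x - 9 / c5 * muf C f x) =
        cosp g x ^ 8 * ν x - 9 / c5 * (cosp g x ^ 8 * muf C f x)
      ring
    · exact (by fun_prop : Continuous fun x => cosp g x ^ 8 * ν x).intervalIntegrable _ _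
    · exact (by fun_prop : Continuous fun x =>
        9 / c5 * (cosp g x ^ 8 * muf C f x)).intervalIntegrable _ _
  have hsub0 : 0 ≤ ∫ x in (0:ℝ)..1, cosp g x ^ 8 * (ν x - 9 / c5 * muf C f x) :=
    intervalIntegral.integral_nonneg zero_le_one fun x _ =>
      mul_nonneg (by positivity) (sub_nonneg.2 (hpw' x).1)
  refine ⟨?_, ?_, ?_⟩
  · rw [h2]
    exact intervalIntegral.integral_nonneg zero_le_one fun x _ =>
      mul_nonneg (by positivity) (mu0 x)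
  · linarith
  · obtain ⟨T, Tc, T2, hT⟩ := h3
    rw [hT]
    have t1 := cs (H := fun x => cosp g x ^ 7 * T x)
      (P := fun x => 367 / 500 * (cosp g x ^ 6 * ν x ^ 2))
      (Q := fun x => cosp g x ^ 8 * (ν x - 9 / c5 * muf C f x)) (by fun_prop) (by fun_prop)
      (by fun_prop) (fun x => by positivity)
      (fun x => mul_nonneg (by positivity) (sub_nonneg.2 (hpw' x).1))
      (fun x => by
        have s1 := (T2 x).trans (hpw' x).2
        have s2 : (0:ℝ) ≤ cosp g x ^ 14 := by positivity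
        calc (cosp g x ^ 7 * T x) ^ 2 = cosp g x ^ 14 * T x ^ 2 := by ring
          _ ≤ cosp g x ^ 14 * (367 / 500 * ν x ^ 2 * (ν x - 9 / c5 * muf C f x)) :=
            mul_le_mul_of_nonneg_left s1 s2
          _ = _ := by ring)
    refine t1.trans ?_
    rw [intervalIntegral.integral_const_mul, hsub]
    have s3 : 0 ≤ (∫ x in (0:ℝ)..1, cosp g x ^ 8 * ν x) - 9 / c5 * AJ 8 2 g f := by
      rw [← hsub]
      exact hsub0
    calc 367 / 500 * (∫ x in (0:ℝ)..1, cosp g x ^ 6 * ν x ^ 2) *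
          ((∫ x in (0:ℝ)..1, cosp g x ^ 8 * ν x) - 9 / c5 * AJ 8 2 g f)
        ≤ 367 / 500 * (G * y ^ 2) * (G * y - 9 / c5 * AJ 8 2 g f) := by
          refine mul_le_mul (by linarith) (by linarith) s3 (by positivity)
      _ = _ := by ring

end Pool.Agent.N954.LS
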