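import Pool.Agent.N954.LS.Real5
import Pool.Agent.N954.LS.Star5
import Pool.Agent.N263.LS.KS9
import Pool.Agent.N849.LS.KS10

set_option autoImplicit false

/-! KT4: the class inequality in `L^10`, from the tenth moment (`star10`). -/

namespace Pool.Agent.N954.LS

open Finset Pool.Agent.H384R3.SPk Pool.Agent.N356.SP MeasureTheory
open Pool.Agent.N332.SK

/-- KT4 from KT2 -/
theorem star5 {m : ℕ} {C : Finset (ZMod m)} {θ : ZMod m → ZMod m → ℝ} {g f : ℤ →₀ ℝ}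
    (star10 : 63 / 8 * (∫ x in (0:ℝ)..1, muf C f x ^ 5) +
      140 / 9 * (∫ x in (0:ℝ)..1, muf C f x ^ 3 * wf C θ f x) +
      32 / 15 * (∫ x in (0:ℝ)..1, muf C f x * wf C θ f x ^ 2) ≤ Mc 5 f)
    (h : GoodC C θ) (hg0 : ∀ n, 0 ≤ g n) (hf0 : ∀ n, 0 ≤ f n)
    (hg : ∀ n ∈ g.support, ((n : ℤ) : ZMod m) = 0)
    (hf : ∀ n ∈ f.support, ((n : ℤ) : ZMod m) ∈ C) {G y : ℝ} (hG0 : 0 < G) (hy : 0 ≤ y)
    (hG : Mc 5 g ≤ G) (hF : Mc 5 f ≤ G * y ^ 5) :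
    0 ≤ AJ 8 2 g f ∧ 9 / c5 * AJ 8 2 g f ≤ G * y ∧
      AJ 7 3 g f ^ 2 ≤ 367 / 500 * G * y ^ 2 * (G * y - 9 / c5 * AJ 8 2 g f) := by
  obtain ⟨T, Tc, T2, hT⟩ := Pool.Agent.N849.LS.AJ3_eq h hf0 hf
  exact star5_of Pool.Agent.N263.LS.muf_cont Pool.Agent.N263.LS.wf_cont star10
    (Pool.Agent.N849.LS.AJ2_eq h.neg hg0 hf0 hg hf 8) ⟨T, Tc, T2, hT g hg0 hg 7⟩ pw5 hG0 hy hG hF

end Pool.Agent.N954.LS
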